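import Mathlib

namespace Pool.Agent.Results.MP_ba4d4a_gt.Tetra

open EuclideanGeometry

/-- angle deficit at the vertex `v` of the tetrahedron `v x y z` -/
noncomputable def curv (v x y z : EuclideanSpace ℝ (Fin 3)) : ℝ :=
  2 * Real.pi - (∠ x v y + ∠ y v z + ∠ x v z)

theorem lt (a b c d : ℝ) (ha : 0 < a) (hb : 0 < b) (hc : 0 < c) (hd : 0 < d)
    (h : a ^ 2 * d < c ^ 2 * b) (h1 : c ^ 2 ≤ d) :
    Real.arccos (c / √d) < Real.arccos (a / √b) := by
  refine Real.arccos_lt_arccos (le_trans (by norm_num) (by positivity : 0 ≤ a / √b)) ?_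
    ((div_le_one (by positivity)).2 (Real.le_sqrt_of_sq_le h1))
  refine lt_of_pow_lt_pow_left₀ 2 (by positivity) ?_
  rwa [div_pow, div_pow, Real.sq_sqrt hb.le, Real.sq_sqrt hd.le, div_lt_div_iff₀ hb hd]

theorem ang (x v y : EuclideanSpace ℝ (Fin 3)) : ∠ x v y = Real.arccos
    ((∑ i, (y i - v i) * (x i - v i)) / √((∑ i, (x i - v i) ^ 2) * ∑ i, (y i - v i) ^ 2)) := by
  rw [Real.sqrt_mul (by positivity)]
  simp [angle, InnerProductGeometry.angle, EuclideanSpace.norm_eq, PiLp.inner_apply]

theorem result : ∃ a b c d : EuclideanSpace ℝ (Fin 3), AffineIndependent ℝ ![a, b, c, d] ∧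
    dist a c < dist a b ∧ dist a d < dist a b ∧ dist b c < dist a b ∧ dist b d < dist a b ∧
    dist c d < dist a b ∧ curv a b c d < curv c a b d ∧ curv b a c d < curv c a b d := by
  have h2 := lt 50 8900 72 8633 (by norm_num) (by norm_num) (by norm_num) (by norm_num)
    (by norm_num) (by norm_num)
  have h3 := lt 50 4200 72 8633 (by norm_num) (by norm_num) (by norm_num) (by norm_num)
    (by norm_num) (by norm_num)
  have h1 := lt 17 3738 39 7921 (by norm_num) (by norm_num) (by norm_num) (by norm_num)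
    (by norm_num) (by norm_num)
  refine ⟨!₂[-5, 0, 0], !₂[5, 0, 0], !₂[0, 8, 0], !₂[0, -1, 4], ?_, ?_, ?_, ?_, ?_, ?_, ?_, ?_⟩
  · rw [affineIndependent_iff_of_fintype]
    intro w h0 h i
    rw [Finset.weightedVSub_eq_linear_combination _ h0] at h
    have a := congrArg (· 0) h
    have b := congrArg (· 1) h
    have c := congrArg (· 2) h
    simp [Fin.sum_univ_four] at h0 a b c
    fin_cases i <;> simp <;> linarith
  all_goals first
    | (rw [EuclideanSpace.dist_eq, EuclideanSpace.dist_eq]
       refine Real.sqrt_lt_sqrt (by positivity) ?_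
       simp [Fin.sum_univ_three, Real.dist_eq]
       norm_num)
    | (simp only [curv, ang, Fin.sum_univ_three]
       simp only [Matrix.cons_val_zero, Matrix.cons_val_one, Matrix.cons_val]
       norm_num at h1 h2 h3 ⊢
       linarith)

end Pool.Agent.Results.MP_ba4d4a_gt.Tetra
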